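import Pool.Agent.V1125.BSMain

/-!
# Unbounded retreat depth in the solvable Baumslag-Solitar groups
-/

set_option autoImplicit false

namespace Pool.Agent.Results.MP_af8618_al.UnboundedRetreatDepth

open Pool.Agent.V1125 Pool.Agent.V1125.BS

/-- The defining relation `t a t⁻¹ = a ^ m`, with `a = of 0` and `t = of 1`. -/
def rels (m : ℕ) : Set (FreeGroup (Fin 2)) :=
  {FreeGroup.of 1 * FreeGroup.of 0 * (FreeGroup.of 1)⁻¹ * (FreeGroup.of 0 ^ m)⁻¹}

/-- The group `BS(1, m) = ⟨a, t | t a t⁻¹ = a ^ m⟩`. -/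
abbrev BS (m : ℕ) : Type := PresentedGroup (rels m)

/-- The generator `a`. -/
def a (m : ℕ) : BS m := PresentedGroup.of 0

/-- The generator `t`. -/
def t (m : ℕ) : BS m := PresentedGroup.of 1

/-! ## Coordinates -/

variable {m : ℕ}

theorem rel : t m * a m * (t m)⁻¹ = a m ^ m := by
  have h : PresentedGroup.mk (rels m)
      (FreeGroup.of 1 * FreeGroup.of 0 * (FreeGroup.of 1)⁻¹ * (FreeGroup.of 0 ^ m)⁻¹) = 1 :=
    PresentedGroup.one_of_mem (by simp [rels])
  rw [map_mul, map_inv, map_pow] at h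
  have h2 := mul_inv_eq_one.1 h
  rw [map_mul, map_mul, map_inv] at h2
  exact h2

/-- The images of the generators as affine maps of the rational line. -/
def gens (hm : (m : ℚ) ≠ 0) : Fin 2 → Equiv.Perm ℚ := ![Equiv.addRight 1, Equiv.mulLeft₀ m hm]

theorem addRight_pow (n : ℕ) (y : ℚ) : ((Equiv.addRight (1 : ℚ)) ^ n : Equiv.Perm ℚ) y = y + n := by
  induction n generalizing y with
  | zero => simp
  | succ n ih =>
    rw [pow_succ, Equiv.Perm.mul_apply, ih]
    simp
    ring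

/-- The action on the rational line. -/
def φ (hm : (m : ℚ) ≠ 0) : BS m →* Equiv.Perm ℚ := PresentedGroup.toGroup (f := gens hm) (by
  intro r hr
  rw [rels, Set.mem_singleton_iff] at hr
  rw [hr]
  simp only [map_mul, map_inv, map_pow, FreeGroup.lift_apply_of, gens, Matrix.cons_val_zero,
    Matrix.cons_val_one]
  rw [mul_inv_eq_one]
  ext y
  rw [Equiv.Perm.mul_apply, Equiv.Perm.mul_apply, addRight_pow]
  show (m : ℚ) * ((Equiv.mulLeft₀ (m : ℚ) hm)⁻¹ y + 1) = y + m
  have : (Equiv.mulLeft₀ (m : ℚ) hm)⁻¹ y = (m : ℚ)⁻¹ * y := rfl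
  rw [this]
  field_simp)

/-- The height. -/
def κ : BS m →* Multiplicative ℤ :=
  PresentedGroup.toGroup (f := ![1, Multiplicative.ofAdd 1]) (by
  intro r hr
  rw [rels, Set.mem_singleton_iff] at hr
  rw [hr]
  simp)

theorem φ_a (hm : (m : ℚ) ≠ 0) (y : ℚ) : φ hm (a m) y = y + 1 := by
  have : φ hm (a m) = gens hm 0 := PresentedGroup.toGroup.of _
  rw [this]
  rfl

theorem φ_t (hm : (m : ℚ) ≠ 0) (y : ℚ) : φ hm (t m) y = m * y := by
  have : φ hm (t m) = gens hm 1 := PresentedGroup.toGroup.of _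
  rw [this]
  rfl

theorem κ_a : κ (a m) = 1 := PresentedGroup.toGroup.of _

theorem κ_t : κ (t m) = Multiplicative.ofAdd 1 := PresentedGroup.toGroup.of _

theorem gen : Subgroup.closure {a m, t m} = ⊤ := by
  have h : ({a m, t m} : Set (BS m)) = Set.range (PresentedGroup.of (rels := rels m)) := by
    ext x
    constructor
    · rintro (rfl | rfl)
      · exact ⟨0, rfl⟩
      · exact ⟨1, rfl⟩
    · rintro ⟨i, rfl⟩
      fin_cases i
      · exact Or.inl rfl
      · exact Or.inr rfl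
  rw [h]
  exact PresentedGroup.closure_range_of _

theorem φ_apply (hm : (m : ℚ) ≠ 0) (g : BS m) (y : ℚ) :
    φ hm g y = φ hm g 0 + (m : ℚ) ^ (Multiplicative.toAdd (κ g)) * y := by
  have hg : g ∈ Subgroup.closure ({a m, t m} : Set (BS m)) := by rw [gen]; trivial
  induction hg using Subgroup.closure_induction generalizing y with
  | mem x hx =>
    rcases hx with rfl | hx
    · rw [φ_a, φ_a, κ_a]
      simp
      ring
    · rw [Set.mem_singleton_iff] at hx
      rw [hx, φ_t, φ_t, κ_t]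
      simp
  | one => simp
  | mul x z _ _ hx hz =>
    rw [map_mul, Equiv.Perm.mul_apply, Equiv.Perm.mul_apply, hx (φ hm z y), hx (φ hm z 0), hz y,
      map_mul, toAdd_mul, zpow_add₀ hm]
    ring
  | inv x _ hx =>
    have h1 : ∀ y, φ hm x⁻¹ y =
        (m : ℚ) ^ (-(Multiplicative.toAdd (κ x))) * (y - φ hm x 0) := by
      intro y
      rw [map_inv, Equiv.Perm.inv_eq_iff_eq, hx]
      rw [← mul_assoc, ← zpow_add₀ hm, add_neg_cancel, zpow_zero]
      ring
    rw [h1 y, h1 0, map_inv, toAdd_inv]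
    ring

theorem conj_pow (j : ℕ) (n : ℤ) :
    t m ^ j * a m ^ n = a m ^ ((m : ℤ) ^ j * n) * t m ^ j := by
  induction j generalizing n with
  | zero => simp
  | succ j ih =>
    have h1 : t m * a m ^ n = a m ^ ((m : ℤ) * n) * t m := by
      have h2 : (t m * a m * (t m)⁻¹) ^ n = t m * a m ^ n * (t m)⁻¹ := conj_zpow
      rw [rel, ← zpow_natCast, ← zpow_mul] at h2
      rw [h2]
      group
    rw [pow_succ, mul_assoc, h1, ← mul_assoc, ih, mul_assoc]
    congr 2
    ring

/-- Normal forms. -/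
theorem normal_form (g : BS m) : ∃ (i : ℕ) (n k : ℤ),
    g = (t m ^ i)⁻¹ * a m ^ n * t m ^ i * t m ^ k := by
  have raise : ∀ (j i : ℕ) (n : ℤ), ∃ n' : ℤ,
      (t m ^ i)⁻¹ * a m ^ n * t m ^ i = (t m ^ (i + j))⁻¹ * a m ^ n' * t m ^ (i + j) := by
    intro j i n
    refine ⟨(m : ℤ) ^ j * n, ?_⟩
    have h1 := conj_pow (m := m) j n
    have h2 : a m ^ ((m : ℤ) ^ j * n) = t m ^ j * a m ^ n * (t m ^ j)⁻¹ := by
      rw [h1]
      group
    rw [h2, add_comm i j, pow_add]
    group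
  have hlamp : ∀ (g : BS m) (b : ℤ), (∃ (i : ℕ) (n k : ℤ),
      g = (t m ^ i)⁻¹ * a m ^ n * t m ^ i * t m ^ k) → ∃ (i : ℕ) (n k : ℤ),
      g * a m ^ b = (t m ^ i)⁻¹ * a m ^ n * t m ^ i * t m ^ k := by
    rintro g b ⟨i, n, k, rfl⟩
    obtain ⟨n', hn'⟩ := raise k.natAbs i n
    rw [hn']
    set i' := i + k.natAbs with hi'
    obtain ⟨j, hj⟩ : ∃ j : ℕ, (i' : ℤ) + k = j := ⟨((i' : ℤ) + k).toNat, by omega⟩
    refine ⟨i', n' + (m : ℤ) ^ j * b, k, ?_⟩
    have h1 : t m ^ i' * t m ^ k = t m ^ j := by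
      rw [← zpow_natCast, ← zpow_natCast, ← zpow_add, hj]
    rw [mul_assoc _ (t m ^ i') (t m ^ k), mul_assoc _ (t m ^ i') (t m ^ k), h1, mul_assoc,
      conj_pow, zpow_add, mul_assoc, mul_assoc, mul_assoc]
  have hg : g ∈ Subgroup.closure ({a m, t m} : Set (BS m)) := by rw [gen]; trivial
  induction hg using Subgroup.closure_induction_right with
  | one => exact ⟨0, 0, 0, by simp⟩
  | mul_right x _ y hy ih =>
    rcases hy with rfl | hy
    · simpa using hlamp x 1 ih
    · rw [Set.mem_singleton_iff] at hy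
      obtain ⟨i, n, k, rfl⟩ := ih
      exact ⟨i, n, k + 1, by rw [hy, zpow_add_one]; simp only [mul_assoc]⟩
  | mul_inv_cancel x _ y hy ih =>
    rcases hy with rfl | hy
    · simpa using hlamp x (-1) ih
    · rw [Set.mem_singleton_iff] at hy
      obtain ⟨i, n, k, rfl⟩ := ih
      exact ⟨i, n, k - 1, by rw [hy, zpow_sub_one]; simp only [mul_assoc]⟩

theorem φ_a_zpow (hm : (m : ℚ) ≠ 0) (n : ℤ) : φ hm (a m ^ n) 0 = n := by
  have hnat : ∀ (n : ℕ) (y : ℚ), φ hm (a m ^ n) y = y + n := by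
    intro n
    induction n with
    | zero => simp
    | succ n ih =>
      intro y
      rw [pow_succ, map_mul, Equiv.Perm.mul_apply, ih, φ_a]
      push_cast
      ring
  obtain ⟨k, rfl | rfl⟩ := n.eq_nat_or_neg
  · rw [zpow_natCast, hnat]
    simp
  · rw [zpow_neg, zpow_natCast, map_inv, Equiv.Perm.inv_eq_iff_eq, hnat]
    simp

theorem ker_trivial (hm : (m : ℚ) ≠ 0) (g : BS m) (h1 : φ hm g 0 = 0) (h2 : κ g = 1) : g = 1 := by
  obtain ⟨i, n, k, hg⟩ := normal_form g
  have hκt : ∀ k : ℤ, Multiplicative.toAdd (κ (t m ^ k)) = k := by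
    intro k
    rw [map_zpow, κ_t, toAdd_zpow, toAdd_ofAdd]
    simp
  have hκa : ∀ n : ℤ, κ (a m ^ n) = 1 := by
    intro n
    rw [map_zpow, κ_a, one_zpow]
  have hk : k = 0 := by
    have h3 := hκt k
    have h4 : κ g = κ (t m ^ k) := by
      rw [hg, map_mul, map_mul, map_mul, hκa, map_inv]
      simp
    rw [← h4, h2] at h3
    simpa using h3.symm
  have ht0 : ∀ k : ℤ, φ hm (t m ^ k) 0 = 0 := by
    intro k
    obtain ⟨j, rfl | rfl⟩ := k.eq_nat_or_neg
    · rw [zpow_natCast]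
      induction j with
      | zero => simp
      | succ j ih => rw [pow_succ, map_mul, Equiv.Perm.mul_apply, φ_t, mul_zero, ih]
    · rw [zpow_neg, zpow_natCast, map_inv, Equiv.Perm.inv_eq_iff_eq]
      symm
      induction j with
      | zero => simp
      | succ j ih => rw [pow_succ, map_mul, Equiv.Perm.mul_apply, φ_t, mul_zero, ih]
  have hn : n = 0 := by
    rw [hg, hk, zpow_zero, mul_one, map_mul, Equiv.Perm.mul_apply] at h1
    have h3 : φ hm (t m ^ i) 0 = 0 := by
      have := ht0 i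
      rwa [zpow_natCast] at this
    rw [h3, map_mul, Equiv.Perm.mul_apply, φ_a_zpow, φ_apply] at h1
    have h4 : φ hm (t m ^ i)⁻¹ 0 = 0 := by
      have := ht0 (-(i : ℤ))
      rwa [zpow_neg, zpow_natCast] at this
    rw [h4, zero_add] at h1
    rcases mul_eq_zero.1 h1 with h5 | h5
    · exact absurd h5 (zpow_ne_zero _ hm)
    · exact_mod_cast h5
  rw [hg, hk, hn]
  simp

/-- The coordinates on `BS(1, m)`. -/
noncomputable def model (hm : 2 ≤ m) : Model m (BS m) (a m) (t m) where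
  X g := φ (by exact_mod_cast (by omega : m ≠ 0)) g 0
  K g := Multiplicative.toAdd (κ g)
  X_one := by simp
  K_one := by simp
  X_a g := by
    rw [map_mul, Equiv.Perm.mul_apply, φ_a, φ_apply]
    simp
  K_a g := by rw [map_mul, κ_a, mul_one]
  X_t g := by rw [map_mul, Equiv.Perm.mul_apply, φ_t, mul_zero]
  K_t g := by rw [map_mul, κ_t, toAdd_mul, toAdd_ofAdd]
  inj g h h1 h2 := by
    have hm0 : (m : ℚ) ≠ 0 := by exact_mod_cast (by omega : m ≠ 0)
    have h3 : φ hm0 g = φ hm0 h := by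
      ext y
      rw [φ_apply hm0 g, φ_apply hm0 h, h2]
      rw [show φ hm0 g 0 = φ hm0 h 0 from h1]
    have h4 : κ g = κ h := Multiplicative.toAdd.injective h2
    have h5 : g⁻¹ * h = 1 := by
      refine ker_trivial hm0 _ ?_ ?_
      · rw [map_mul, map_inv, h3, inv_mul_cancel]
        rfl
      · rw [map_mul, map_inv, h4, inv_mul_cancel]
    exact inv_mul_eq_one.1 h5
  gen := gen

/-- For every `m ≥ 2` the Cayley graph of `BS(1, m)` with respect to `{a^{±1}, t^{±1}}` has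
unbounded retreat depth. -/
theorem result (m : ℕ) (hm : 2 ≤ m) (D : ℕ) :
    ∃ g : BS m, D < retreatDepth ({a m, t m} : Set (BS m)) g := by
  obtain ⟨g, hg⟩ := (model hm).unbounded hm (D + 1)
  exact ⟨g, hg⟩

end Pool.Agent.Results.MP_af8618_al.UnboundedRetreatDepth
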